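import Pool.Agent.H353R3.Pre4

/-!
# An open union of strata of `𝔐_{0,3}` with irrational Hilbert series

`starU` is the union of the strata of `𝔐_{0,3}` whose dual graph is a star with all three markings
on its centre: one component carries all the markings and meets all the other components.

It is open (closed under smoothing nodes), its Hilbert series `H_U` is the generating function
`∑ p(d) t^d = ∏_{j ≥ 1} 1 / (1 - t^j)` of the partitions, and this is not the expansion at `0` of a
rational function.
-/

open Pool.Agent.H353R3.Pre

namespace Pool.Agent.Results.MP_52bf41_ag.IrrationalSeries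

theorem result :
    IsOpenUnion starU ∧ (∀ d, dimCH starU d = Fintype.card (Nat.Partition d)) ∧
      ∀ P Q : Polynomial ℂ, Q ≠ 0 →
        (Q : PowerSeries ℂ) * hilbSeries starU ≠ (P : PowerSeries ℂ) :=
  ⟨isOpen_starU, dimCH_starU, fun P Q hQ => by
    rw [hilbSeries_starU]
    exact not_rational P Q hQ⟩

end Pool.Agent.Results.MP_52bf41_ag.IrrationalSeries
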